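import Pool.Agent.Helper86.TK.Defs

set_option autoImplicit false

open Set Filter Topology

namespace Pool.Agent.Helper86.TK

theorem fine_nd (x y : ℕ → Bool) (m : ℕ) (h : ∀ i < m, x i = y i) : nd x m = nd y m := by
  unfold nd
  refine List.map_congr_left ?_
  intro i hi
  exact h i (List.mem_range.1 hi)

theorem fine_len (x : ℕ → Bool) (m : ℕ) : (nd x m).length = m := by
  unfold nd
  simp

theorem fine_ind (x : ℕ → Bool) (m : ℕ) : ind x 0 (nd x m) = 1 := by
  unfold ind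
  rw [fine_len]
  simp

theorem fine_fst {Γ : Type} (r : Γ → ℕ → Bool) (η : Γ → ℝ) (p : XX r η) (x : Γ) :
    |p.1.1 x| ≤ ‖p‖ := by
  have h1 : ‖p.1.1 x‖ ≤ ‖p.1.1‖ := lp.norm_apply_le_norm (by norm_num) p.1.1 x
  have h2 : ‖p.1.1‖ ≤ ‖p.1‖ := norm_fst_le p.1
  exact h1.trans h2

theorem fine_snd {Γ : Type} (r : Γ → ℕ → Bool) (η : Γ → ℝ) (p : XX r η) (t : T) :
    |p.1.2 t| ≤ ‖p‖ := by
  have h1 : ‖p.1.2 t‖ ≤ ‖p.1.2‖ := lp.norm_apply_le_norm (by simp) p.1.2 t
  have h2 : ‖p.1.2‖ ≤ ‖p.1‖ := norm_snd_le p.1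
  exact h1.trans h2

noncomputable def fine_cf {Γ : Type} (r : Γ → ℕ → Bool) (η : Γ → ℝ) (x : Γ) :
    StrongDual ℝ (XX r η) :=
  LinearMap.mkContinuous
    { toFun := fun p => p.1.1 x
      map_add' := fun p q => rfl
      map_smul' := fun c p => rfl } 1 (fun p => by
        rw [one_mul]
        exact fine_fst r η p x)

noncomputable def fine_cs {Γ : Type} (r : Γ → ℕ → Bool) (η : Γ → ℝ) (t : T) :
    StrongDual ℝ (XX r η) :=
  LinearMap.mkContinuous
    { toFun := fun p => p.1.2 t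
      map_add' := fun p q => rfl
      map_smul' := fun c p => rfl } 1 (fun p => by
        rw [one_mul]
        exact fine_snd r η p t)

theorem fine_weak {Y : Type} [NormedAddCommGroup Y] [NormedSpace ℝ Y] (U : Ultrafilter ℕ)
    (L : Set Y) (hL : WCpt L) (l : ℕ → Y) (hl : ∀ n, l n ∈ L) :
    ∃ l₀ ∈ L, ∀ φ : StrongDual ℝ Y, Tendsto (fun n => φ (l n)) U (𝓝 (φ l₀)) := by
  have h1 := hL.ultrafilter_le_nhds (U.map (fun n => toWeakSpace ℝ Y (l n)))
    (by
      rw [Ultrafilter.coe_map]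
      refine le_principal_iff.2 (mem_map.2 (Filter.univ_mem' fun n => ?_))
      exact ⟨l n, hl n, rfl⟩)
  obtain ⟨_, ⟨l₀, hl₀, rfl⟩, h2⟩ := h1
  refine ⟨l₀, hl₀, fun φ => ?_⟩
  have h3 : Tendsto (fun n => toWeakSpace ℝ Y (l n)) U (𝓝 (toWeakSpace ℝ Y l₀)) := h2
  have h4 : Continuous fun x : WeakSpace ℝ Y => (topDualPairing ℝ Y).flip x φ :=
    WeakBilin.eval_continuous (topDualPairing ℝ Y).flip φ
  exact (h4.tendsto (toWeakSpace ℝ Y l₀)).comp h3

theorem st_FINE (hLIM : ST_LIM) : ST_FINE := by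
  intro Γ r η hP θ s hs hθ L hL hall
  choose l hl hd using hall
  set U : Ultrafilter ℕ := hyperfilter ℕ with hU
  have hθ0 : 0 < θ := by
    rw [← hθ 0]
    exact (hP.2 (s 0)).1
  obtain ⟨l₀, hl₀, hw⟩ := fine_weak U L hL l hl
  classical
  let x : ℕ → Bool := fun m => decide (∀ᶠ n in (U : Filter ℕ), r (s n) m = true)
  have hx : ∀ m, ∀ᶠ n in (U : Filter ℕ), r (s n) m = x m := by
    intro m
    by_cases h : ∀ᶠ n in (U : Filter ℕ), r (s n) m = true
    · have hxm : x m = true := decide_eq_true h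
      rw [hxm]
      exact h
    · have hxm : x m = false := decide_eq_false h
      rw [hxm]
      have h2 := Ultrafilter.eventually_not.2 h
      filter_upwards [h2] with n hn
      exact Bool.eq_false_iff.2 hn
  have hx2 : ∀ m, ∀ᶠ n in (U : Filter ℕ), nd (r (s n)) m = nd x m := by
    intro m
    have h1 : ∀ᶠ n in (U : Filter ℕ), ∀ i ∈ Finset.range m, r (s n) i = x i :=
      (Finset.eventually_all (Finset.range m)).2 fun i _ => hx i
    filter_upwards [h1] with n hn
    exact fine_nd _ _ m fun i hi => hn i (Finset.mem_range.2 hi)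
  have hb : ∀ m, 3 ≤ l₀.1.2 (nd x m) := by
    intro m
    have h1 : Tendsto (fun n => (l n).1.2 (nd x m)) U (𝓝 (l₀.1.2 (nd x m))) :=
      hw (fine_cs r η (nd x m))
    refine ge_of_tendsto h1 ?_
    filter_upwards [hx2 m] with n hn
    have h2 := (fine_snd r η ((4 / θ) • UX r η (s n) - l n) (nd x m)).trans (hd n)
    have h3 : ((4 / θ) • UX r η (s n) - l n).1.2 (nd x m) =
        (4 / θ) * (η (s n) * ind (r (s n)) 0 (nd x m)) - (l n).1.2 (nd x m) := rfl
    rw [h3, hθ, ← hn, fine_ind, hn] at h2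
    have h4 : (4 / θ) * (θ * 1) = 4 := by field_simp
    rw [h4] at h2
    have h5 := (abs_le.1 h2).2
    linarith
  obtain ⟨hz1, hz2⟩ := hLIM Γ r η hP l₀.1 l₀.2
  by_cases hxr : x ∈ range r
  · obtain ⟨z, hz⟩ := hxr
    have h1 := hz1 z
    rw [hz] at h1
    have h2 : 3 ≤ η z * l₀.1.1 z := ge_of_tendsto h1 (Filter.Eventually.of_forall hb)
    have h3 : Tendsto (fun n => (l n).1.1 z) U (𝓝 (l₀.1.1 z)) := hw (fine_cf r η z)
    have h4 : l₀.1.1 z ≤ 1 := by
      refine le_of_tendsto h3 ?_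
      have h5 : ∀ᶠ n in (U : Filter ℕ), s n ≠ z := by
        have h6 : ∀ᶠ n in (cofinite : Filter ℕ), s n ≠ z := by
          rw [Filter.eventually_cofinite]
          refine Set.Subsingleton.finite ?_
          intro a ha b hb'
          simp only [ne_eq, not_not, Set.mem_ofPred_eq] at ha hb'
          exact hs (ha.trans hb'.symm)
        exact (Filter.hyperfilter_le_cofinite (α := ℕ)) h6
      filter_upwards [h5] with n hn
      have h7 := (fine_fst r η ((4 / θ) • UX r η (s n) - l n) z).trans (hd n)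
      have h8 : ((4 / θ) • UX r η (s n) - l n).1.1 z =
          (4 / θ) * ((lp.single 2 (s n) (1 : ℝ) : E2 Γ) z) - (l n).1.1 z := rfl
      rw [h8, lp.single_apply_ne 2 (s n) _ hn.symm] at h7
      have h9 := (abs_le.1 h7).1
      linarith
    have h10 := (hP.2 z).2
    have h11 := (hP.2 z).1
    nlinarith
  · have h1 := hz2 x hxr
    have h2 : (3 : ℝ) ≤ 0 := ge_of_tendsto h1 (Filter.Eventually.of_forall hb)
    linarith

end Pool.Agent.Helper86.TK
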